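import Pool.Agent.H61.Stein.Fin

/-! Symmetric first rows; the sequence `T i + T (i + 1) + T (i + 2)`. -/

namespace Pool.Agent.H56.EV

open Finset Pool.Agent.H61.Stein

/-- The first row `x_1 … x_m` is symmetric: `x_i = x_(m - i)` for `0 < i < m` (`n = m + 1`). -/
def SymmetricRow {m : ℕ} (s : Fin m → ZMod 2) : Prop :=
  ∀ i, 1 ≤ i → i < m → ext s i = ext s (m - i)

/-- `T i + T (i + 1) + T (i + 2)`. -/
def tw (T : ℕ → ZMod 2) (i : ℕ) : ZMod 2 := T i + T (i + 1) + T (i + 2)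

end Pool.Agent.H56.EV
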