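import Pool.Agent.H56.EV.F3

/-! Symmetric sequences of odd degree: conclusion. -/

namespace Pool.Agent.H56.EV

open Finset Pool.Agent.H61.Stein

theorem sym3_of_S3 {U : ℕ → ZMod 2} {N : ℕ} (h : S3 U N) (h0 : U 0 = 0) : Sym3 U N := by
  refine ⟨fun j hj => ?_, h0, fun i _ hi => ?_⟩
  · have := h.rev 0 j (by omega)
    rw [Nat.sub_zero] at this
    exact this
  · have a := entry_tri U i (N - i)
    have e : i + (N - i) = N := by omega
    rw [e] at a
    rw [a, h.rev i (N - i) (by omega)]
    have e2 : N - i - (N - i) = 0 := by omega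
    rw [e2, h.swap i 0 (by omega)]
    rfl

theorem one_two {e : ℕ → ZMod 2} {m : ℕ} (h : Sym3 e m) (hm : 3 ≤ m) : e 1 = e 2 := by
  have h3 := h.swap 2 1 (by omega)
  rw [tri_step] at h3
  have h4 : tri e 0 1 + tri e 0 (1 + 2) = e 1 + e 3 := rfl
  have h5 : tri e 1 2 = e 2 + e 3 := rfl
  rw [h4, h5] at h3
  linear_combination h3

theorem cond_odd {T : ℕ → ZMod 2} {m : ℕ} (h : Sym3 T m) (K : ℕ) (hm : m = 2 * K + 1)
    (hc : ∀ l < K, cnd T K l + T (2 * l + 1) = 0) (k : ℕ) (hk : 1 ≤ k) (hkK : k ≤ K) :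
    tri T k (k + 1) = tw T (2 * k - 1) := by
  have h1 := hc (K - k) (by omega)
  unfold cnd at h1
  have e0 : K - (K - k) = k := by omega
  rw [e0, h.swap _ _ (by omega), h.rev k (2 * (K - k)) (by omega)] at h1
  have e1 : m - k - 2 * (K - k) = k + 1 := by omega
  rw [e1, h.palin (2 * (K - k)) (by omega), h.palin (2 * (K - k) + 2) (by omega),
    h.palin (2 * (K - k) + 1) (by omega)] at h1
  have e2 : m - 2 * (K - k) = 2 * k + 1 := by omega
  have e3 : m - (2 * (K - k) + 2) = 2 * k - 1 := by omega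
  have e4 : m - (2 * (K - k) + 1) = 2 * k := by omega
  rw [e2, e3, e4] at h1
  unfold tw
  have e5 : 2 * k - 1 + 1 = 2 * k := by omega
  have e6 : 2 * k - 1 + 2 = 2 * k + 1 := by omega
  rw [e5, e6]
  have h2 := z2_add_self (tri T k (k + 1))
  linear_combination h2 - h1

theorem odd_concl {T : ℕ → ZMod 2} {m : ℕ} (h : Sym3 T m) (K : ℕ) (hm : m = 2 * K + 1)
    (hc : ∀ l < K, cnd T K l + T (2 * l + 1) = 0) :
    (∀ i ≤ m, T i = 0) ∨ (m % 3 = 0 ∧ ∀ i, 1 ≤ i → i < m → T i = if i % 3 = 0 then 1 else 0) := by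
  have hl : T m = 0 := by rw [h.palin m le_rfl, Nat.sub_self, h.zero]
  rcases Nat.eq_zero_or_pos K with hK | hK
  · left
    intro i hi
    subst hK
    subst hm
    have : i = 0 ∨ i = 1 := by omega
    rcases this with rfl | rfl
    · exact h.zero
    · exact hl
  have h12 := one_two h (by omega)
  have hT1 : T 1 = 0 := by
    have a := cond_odd h K hm hc 1 le_rfl (by omega)
    have b : tri T 1 (1 + 1) = T 2 + T 3 := rfl
    have c : tw T (2 * 1 - 1) = T 1 + T 2 + T 3 := rfl
    rw [b, c] at a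
    linear_combination -a
  have hT2 : T 2 = 0 := by rw [← h12, hT1]
  rcases Nat.lt_or_ge K 2 with hK2 | hK2
  · left
    intro i hi
    have hK1 : K = 1 := by omega
    subst hK1
    subst hm
    have : i = 0 ∨ i = 1 ∨ i = 2 ∨ i = 3 := by omega
    rcases this with rfl | rfl | rfl | rfl
    · exact h.zero
    · exact hT1
    · exact hT2
    · exact hl
  have hS := tw_S3 h (by omega : 2 ≤ m)
  have hU0 : tw T 0 = 0 := by
    show T 0 + T 1 + T 2 = 0
    rw [h.zero, hT1, hT2]; rfl
  have hU := sym3_of_S3 hS hU0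
  obtain ⟨K', rfl⟩ : ∃ K', K = K' + 1 := ⟨K - 1, by omega⟩
  have hm' : m - 2 = 2 * K' + 1 := by omega
  have hcU : ∀ l < K', cnd (tw T) K' l = 0 := by
    intro l hlK
    obtain ⟨k, hk⟩ : ∃ k, K' = l + k := ⟨K' - l, by omega⟩
    unfold cnd
    have e0 : K' - l = k := by omega
    rw [e0, hU.swap _ _ (by omega), hU.rev k (2 * l) (by omega)]
    have e1 : m - 2 - k - 2 * l = k + 1 := by omega
    rw [e1, hU.palin (2 * l) (by omega), hU.palin (2 * l + 2) (by omega)]
    have e2 : m - 2 - 2 * l = 2 * k + 1 := by omega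
    have e3 : m - 2 - (2 * l + 2) = 2 * k - 1 := by omega
    rw [e2, e3, tri_tw_a]
    have a := cond_odd h (K' + 1) hm hc k (by omega) (by omega)
    have b := cond_odd h (K' + 1) hm hc (k + 1) (by omega) (by omega)
    have e4 : 2 * (k + 1) - 1 = 2 * k + 1 := by omega
    rw [e4] at b
    rw [a, b]
    have c1 := z2_add_self (tw T (2 * k + 1))
    have c2 := z2_add_self (tw T (2 * k - 1))
    linear_combination c1 + c2
  have hconst := red_const dzero hU K' hm' hcU
  have hstep : ∀ j, 1 ≤ j → j + 4 ≤ m → T (j + 3) = T j := by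
    intro j h1 h2
    have a := hconst j h1 (by omega)
    have b := hconst (j + 1) (by omega) (by omega)
    have c : tw T j + tw T (j + 1) = T j + T (j + 3) := by
      show (T j + T (j + 1) + T (j + 2)) + (T (j + 1) + T (j + 1 + 1) + T (j + 1 + 2)) = _
      have e1 : j + 1 + 1 = j + 2 := rfl
      have e2 : j + 1 + 2 = j + 3 := by omega
      rw [e1, e2]
      have c1 := z2_add_self (T (j + 1))
      have c2 := z2_add_self (T (j + 2))
      linear_combination c1 + c2
    rw [a, b, z2_add_self] at c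
    have d := z2_add_self (T j)
    linear_combination -c - d
  have hall : ∀ q, (3 * q + 1 < m → T (3 * q + 1) = 0) ∧ (3 * q + 2 < m → T (3 * q + 2) = 0) ∧
      (3 * q + 3 < m → T (3 * q + 3) = T 3) := by
    intro q
    induction q with
    | zero => exact ⟨fun _ => hT1, fun _ => hT2, fun _ => rfl⟩
    | succ q ih =>
      obtain ⟨i1, i2, i3⟩ := ih
      refine ⟨fun hq => ?_, fun hq => ?_, fun hq => ?_⟩
      · have e : 3 * (q + 1) + 1 = 3 * q + 1 + 3 := by ring
        rw [e, hstep _ (by omega) (by omega), i1 (by omega)]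
      · have e : 3 * (q + 1) + 2 = 3 * q + 2 + 3 := by ring
        rw [e, hstep _ (by omega) (by omega), i2 (by omega)]
      · have e : 3 * (q + 1) + 3 = 3 * q + 3 + 3 := by ring
        rw [e, hstep _ (by omega) (by omega), i3 (by omega)]
  have hval : ∀ i, 1 ≤ i → i < m → T i = if i % 3 = 0 then T 3 else 0 := by
    intro i h1 h2
    have h3 : i = 3 * ((i - 1) / 3) + 1 ∨ i = 3 * ((i - 1) / 3) + 2 ∨
        i = 3 * ((i - 1) / 3) + 3 := by omega
    rcases h3 with h3 | h3 | h3
    · rw [if_neg (by omega), h3]; exact (hall _).1 (by omega)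
    · rw [if_neg (by omega), h3]; exact (hall _).2.1 (by omega)
    · rw [if_pos (by omega), h3]; exact (hall _).2.2 (by omega)
  have hb : ∀ a : ZMod 2, a = 0 ∨ a = 1 := by decide
  rcases hb (T 3) with h3 | h3
  · left
    intro i hi
    rcases Nat.eq_zero_or_pos i with h0 | h0
    · subst h0; exact h.zero
    rcases Nat.lt_or_ge i m with h1 | h1
    · rw [hval i h0 h1, h3]; split_ifs <;> rfl
    · have : i = m := by omega
      rw [this]; exact hl
  · right
    rw [h3] at hval
    refine ⟨?_, hval⟩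
    by_contra h4
    rcases (by omega : m % 3 = 1 ∨ m % 3 = 2) with h5 | h5
    · have a := hval (m - 1) (by omega) (by omega)
      rw [if_pos (by omega), h.palin (m - 1) (by omega)] at a
      have e : m - (m - 1) = 1 := by omega
      rw [e, hT1] at a
      exact absurd a (by decide)
    · have a := hval (m - 2) (by omega) (by omega)
      rw [if_pos (by omega), h.palin (m - 2) (by omega)] at a
      have e : m - (m - 2) = 2 := by omega
      rw [e, hT2] at a
      exact absurd a (by decide)

end Pool.Agent.H56.EV
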