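import Pool.Agent.H56.EV.Defs

/-! Symmetric sequences of even degree: the descent. -/

namespace Pool.Agent.H56.EV

open Finset Pool.Agent.H61.Stein

theorem tri_step (x : ℕ → ZMod 2) (i j : ℕ) : tri x (i + 2) j = tri x i j + tri x i (j + 2) := by
  show (tri x i j + tri x i (j + 1)) + (tri x i (j + 1) + tri x i (j + 1 + 1)) = _
  have h := z2_add_self (tri x i (j + 1))
  have e : j + 1 + 1 = j + 2 := rfl
  rw [e]
  linear_combination h

theorem tri_dbl (x : ℕ → ZMod 2) (c i : ℕ) : ∀ j,
    tri x (2 * i) (2 * j + c) = tri (fun t => x (2 * t + c)) i j := by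
  induction i with
  | zero => intro j; rfl
  | succ i ih =>
    intro j
    have e : 2 * (i + 1) = 2 * i + 2 := by ring
    rw [e, tri_step, ih j]
    have e2 : 2 * j + c + 2 = 2 * (j + 1) + c := by ring
    rw [e2, ih (j + 1)]
    rfl

theorem tri_zero (i j : ℕ) : tri (fun _ => (0 : ZMod 2)) i j = 0 := by
  induction i generalizing j with
  | zero => rfl
  | succ i ih =>
    show tri _ i j + tri _ i (j + 1) = 0
    rw [ih, ih, add_zero]

/-- The symmetries of the triangle of a sequence. -/
structure S3 (L : ℕ → ZMod 2) (N : ℕ) : Prop where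
  swap : ∀ i j, i + j ≤ N → tri L i j = tri L j i
  rev : ∀ i j, i + j ≤ N → tri L i j = tri L i (N - i - j)

theorem S3.diag {L : ℕ → ZMod 2} {N : ℕ} (h : S3 L N) (a : ℕ) (ha : 2 * a + 1 ≤ N) :
    tri L a a = 0 := by
  have h1 : tri L (a + 1) a = tri L a a + tri L a (a + 1) := rfl
  rw [h.swap (a + 1) a (by omega)] at h1
  linear_combination -h1

open Polynomial in
/-- The vanishing theorem for sequences. -/
theorem dz_seq (n : ℕ) (v : ℕ → ZMod 2) (h : S3 v (2 * n + 1))
    (hD : ∀ q ≤ n, v (2 * q + 1) = tri v q (q + 1)) : ∀ j ≤ 2 * n + 1, v j = 0 := by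
  intro j hj
  rw [← fn_X v j]
  refine dzero n (fn v) ?_ ?_ ?_ j hj
  · intro p hp
    refine Polynomial.induction_with_natDegree_le
      (fun p => fn v (p.comp (X + 1)) = fn v p) (2 * n + 1) ?_ ?_ ?_ p hp
    · simp
    · intro i c _ hi
      have e1 : (C c * X ^ i : (ZMod 2)[X]).comp (X + 1) = c • (X ^ 0 * (X + 1) ^ i) := by
        simp [smul_eq_C_mul]
      have e2 : (C c * X ^ i : (ZMod 2)[X]) = c • X ^ i := by
        simp [smul_eq_C_mul]
      rw [e1, e2, map_smul, map_smul, fn_tri, fn_X, h.swap i 0 (by omega)]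
      rfl
    · intro p q _ _ h1 h2
      rw [add_comp, map_add, map_add, h1, h2]
  · intro i hi
    rw [fn_X, fn_X]
    have := h.rev 0 i (by omega)
    rw [Nat.sub_zero] at this
    exact this.symm
  · intro F hF
    refine Polynomial.induction_with_natDegree_le
      (fun F => fn v (X * F.comp (X ^ 2)) = fn v (X * F.comp (X ^ 2 + X))) n ?_ ?_ ?_ F hF
    · simp
    · intro q c _ hq
      have e1 : (X * (C c * X ^ q : (ZMod 2)[X]).comp (X ^ 2)) = c • X ^ (2 * q + 1) := by
        rw [mul_comp, C_comp, X_pow_comp, smul_eq_C_mul]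
        ring
      have e2 : (X * (C c * X ^ q : (ZMod 2)[X]).comp (X ^ 2 + X)) =
          c • (X ^ (q + 1) * (X + 1) ^ q) := by
        rw [mul_comp, C_comp, X_pow_comp, smul_eq_C_mul]
        have : (X ^ 2 + X : (ZMod 2)[X]) = X * (X + 1) := by ring
        rw [this, mul_pow]
        ring
      rw [e1, e2, map_smul, map_smul, fn_X, fn_tri, hD q hq]
    · intro p q _ _ h1 h2
      rw [add_comp, add_comp, mul_add, mul_add, map_add, map_add, h1, h2]

/-- The descent. -/
theorem desc (r : ℕ) : ∀ L : ℕ → ZMod 2, S3 L (2 * r) → (∀ i ≤ r, L (2 * i) = 0) →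
    (∀ i i', i + i' + 1 = r → L (2 * i + 1) = tri L i (i + 1) + tri L i' (i' + 1)) →
    ∀ j ≤ 2 * r, L j = 0 := by
  induction r using Nat.strong_induction_on with
  | _ r ih =>
    intro L h h0 hD
    rcases Nat.eq_zero_or_pos r with hr | hr
    · subst hr
      intro j hj
      have : j = 2 * 0 := by omega
      rw [this]
      exact h0 0 le_rfl
    obtain ⟨k, rfl⟩ : ∃ k, r = k + 1 := ⟨r - 1, by omega⟩
    set v : ℕ → ZMod 2 := fun t => L (2 * t + 1) with hv
    have hodd : ∀ i j, tri L (2 * i) (2 * j + 1) = tri v i j := fun i j => tri_dbl L 1 i j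
    have hev : ∀ i j, i + j ≤ k + 1 → tri L (2 * i) (2 * j) = 0 := by
      intro i j hij
      have h1 := tri_dbl L 0 i j
      rw [Nat.add_zero] at h1
      rw [h1, ← tri_zero i j]
      exact tri_local _ _ (k + 1) (fun t ht => h0 t ht) i j hij
    have hS : S3 v k := by
      refine ⟨fun i j hij => ?_, fun i j hij => ?_⟩
      · rw [← hodd i j, ← hodd j i, h.swap _ _ (by omega)]
        have h1 : tri L (2 * j + 1) (2 * i) = tri L (2 * j) (2 * i) + tri L (2 * j) (2 * i + 1) :=
          rfl
        rw [h1, hev j i (by omega), zero_add]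
      · rw [← hodd i j, ← hodd i _, h.rev _ _ (by omega)]
        congr 1
        omega
    have pe : ∀ a, tri L (2 * a) (2 * a + 1) = tri v a a := fun a => hodd a a
    have po : ∀ a, 2 * a + 1 ≤ k → tri L (2 * a + 1) (2 * a + 1 + 1) = tri v a (a + 1) := by
      intro a ha
      have h1 : tri L (2 * a + 1) (2 * a + 1 + 1) =
          tri L (2 * a) (2 * a + 1 + 1) + tri L (2 * a) (2 * a + 1 + 1 + 1) := rfl
      have e1 : 2 * a + 1 + 1 = 2 * (a + 1) := by ring
      rw [h1, e1, hev a (a + 1) (by omega), zero_add, hodd a (a + 1)]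
    have hall : ∀ i ≤ k, v i = 0 := by
      rcases Nat.even_or_odd k with hk | hk
      · obtain ⟨r', hr'⟩ := hk
        have hk2 : k = 2 * r' := by omega
        have hS' : S3 v (2 * r') := hk2 ▸ hS
        rcases Nat.eq_zero_or_pos r' with hz | hz
        · intro i hi
          have hi0 : i = 0 := by omega
          subst hi0
          have h1 := hD 0 0 (by omega)
          show L (2 * 0 + 1) = 0
          rw [h1]
          exact z2_add_self _
        have h00 : v 0 = 0 := by
          have h1 := hS'.swap 1 0 (by omega)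
          have h2 : tri v 1 0 = v 0 + v 1 := rfl
          have h3 : tri v 0 1 = v 1 := rfl
          rw [h2, h3] at h1
          linear_combination h1
        have hres := ih r' (by omega) v hS' ?_ ?_
        · intro i hi
          exact hres i (by omega)
        · intro a ha
          rcases Nat.eq_zero_or_pos a with ha0 | ha0
          · subst ha0; exact h00
          rcases Nat.lt_or_ge a r' with ha1 | ha1
          · have h1 := hD (2 * a) (2 * (r' - a)) (by omega)
            show L (2 * (2 * a) + 1) = 0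
            rw [h1, pe, pe, hS'.diag a (by omega), hS'.diag (r' - a) (by omega), add_zero]
          · have ha2 : a = r' := by omega
            subst ha2
            have h1 := hS'.rev 0 (2 * a) (by omega)
            have e1 : 2 * a - 0 - 2 * a = 0 := by omega
            rw [e1] at h1
            show tri v 0 (2 * a) = 0
            rw [h1]
            exact h00
        · intro a a' haa
          have h1 := hD (2 * a + 1) (2 * a' + 1) (by omega)
          show L (2 * (2 * a + 1) + 1) = _
          rw [h1, po a (by omega), po a' (by omega)]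
      · obtain ⟨n, hn⟩ := hk
        subst hn
        refine dz_seq n v hS ?_
        intro q hq
        have h1 := hD (2 * q + 1) (2 * (n - q)) (by omega)
        show L (2 * (2 * q + 1) + 1) = _
        rw [h1, po q (by omega), pe, hS.diag (n - q) (by omega), add_zero]
    intro j hj
    rcases Nat.even_or_odd j with hj2 | hj2
    · obtain ⟨a, ha⟩ := hj2
      have : j = 2 * a := by omega
      rw [this]
      exact h0 a (by omega)
    · obtain ⟨a, ha⟩ := hj2
      rw [ha]
      exact hall a (by omega)

theorem tri_tw (T : ℕ → ZMod 2) (i : ℕ) : ∀ j,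
    tri (tw T) i j = tri T i j + tri T i (j + 1) + tri T i (j + 2) := by
  induction i with
  | zero => intro j; rfl
  | succ i ih =>
    intro j
    have h1 : tri (tw T) (i + 1) j = tri (tw T) i j + tri (tw T) i (j + 1) := rfl
    have h2 : tri T (i + 1) j = tri T i j + tri T i (j + 1) := rfl
    have h3 : tri T (i + 1) (j + 1) = tri T i (j + 1) + tri T i (j + 1 + 1) := rfl
    have h4 : tri T (i + 1) (j + 2) = tri T i (j + 2) + tri T i (j + 2 + 1) := rfl
    rw [h1, ih, ih, h2, h3, h4]
    have e1 : j + 1 + 1 = j + 2 := rfl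
    have e2 : j + 1 + 2 = j + 2 + 1 := by omega
    rw [e1, e2]
    ring

theorem tri_tw_a (T : ℕ → ZMod 2) (i j : ℕ) :
    tri (tw T) i j = tri T i j + tri T (i + 1) (j + 1) := by
  rw [tri_tw]
  have h3 : tri T (i + 1) (j + 1) = tri T i (j + 1) + tri T i (j + 2) := rfl
  rw [h3]; ring

theorem tri_tw_b (T : ℕ → ZMod 2) (i j : ℕ) :
    tri (tw T) i j = tri T (i + 1) j + tri T i (j + 2) := by
  rw [tri_tw]
  have h3 : tri T (i + 1) j = tri T i j + tri T i (j + 1) := rfl
  rw [h3]

theorem tri_tw_c (T : ℕ → ZMod 2) (i j : ℕ) :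
    tri (tw T) i j = tri T i (j + 1) + tri T (i + 2) j := by
  rw [tri_tw, tri_step]; ring

theorem tw_S3 {T : ℕ → ZMod 2} {m : ℕ} (h : Sym3 T m) (hm : 2 ≤ m) : S3 (tw T) (m - 2) := by
  refine ⟨fun i j hij => ?_, fun i j hij => ?_⟩
  · rw [tri_tw_a, tri_tw_a, h.swap i j (by omega), h.swap (i + 1) (j + 1) (by omega)]
  · rw [tri_tw_b, tri_tw_a, h.rev (i + 1) j (by omega), h.rev i (j + 2) (by omega)]
    have e1 : m - (i + 1) - j = m - 2 - i - j + 1 := by omega
    have e2 : m - i - (j + 2) = m - 2 - i - j := by omega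
    rw [e1, e2]; ring

end Pool.Agent.H56.EV
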