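import Pool.Agent.H56.EV.F2

/-! Symmetric sequences of even degree: conclusion. -/

namespace Pool.Agent.H56.EV

open Finset Pool.Agent.H61.Stein

theorem tri_sh (U : ℕ → ZMod 2) (i : ℕ) : ∀ j,
    tri (fun t => U (t + 2) + U (t + 4)) i j = tri U (i + 2) (j + 2) := by
  induction i with
  | zero =>
    intro j
    have h := tri_step U 0 (j + 2)
    rw [Nat.zero_add] at h
    rw [h]; rfl
  | succ i ih =>
    intro j
    have h1 : tri U (i + 1 + 2) (j + 2) = tri U (i + 2) (j + 2) + tri U (i + 2) (j + 2 + 1) := rfl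
    have h2 : tri (fun t => U (t + 2) + U (t + 4)) (i + 1) j =
      tri (fun t => U (t + 2) + U (t + 4)) i j + tri (fun t => U (t + 2) + U (t + 4)) i (j + 1) :=
      rfl
    rw [h1, h2, ih, ih]

/-- The conditions in terms of `U`. -/
theorem cond_U {T : ℕ → ZMod 2} {m : ℕ} (h : Sym3 T m) (M : ℕ) (hm : m = 2 * M)
    (hv : ∀ l, 1 ≤ l → l < M → tri T l (l + 1) + tri T (2 * l - 1) (M - l) = tw T (2 * l - 1))
    (l l' : ℕ) (h1 : 1 ≤ l) (h1' : 1 ≤ l') (hl : l + l' + 1 = M) :
    tri (tw T) l (l + 1) + tri (tw T) l' (l' + 1) = tw T (2 * l - 1) + tw T (2 * l + 1) := by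
  have hS := tw_S3 h (by omega : 2 ≤ m)
  have e1 : tri (tw T) l' (l' + 1) = tri (tw T) (2 * l - 1) l' := by
    rw [hS.swap l' (l' + 1) (by omega), hS.rev (l' + 1) l' (by omega)]
    have a1 : m - 2 - (l' + 1) - l' = 2 * l - 1 := by omega
    rw [a1, hS.swap (l' + 1) (2 * l - 1) (by omega), hS.rev (2 * l - 1) (l' + 1) (by omega)]
    congr 1
    omega
  have b1 := hv l h1 (by omega)
  have b2 := hv (l + 1) (by omega) (by omega)
  have a2 : 2 * (l + 1) - 1 = 2 * l + 1 := by omega
  have a3 : M - (l + 1) = l' := by omega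
  have a4 : M - l = l' + 1 := by omega
  rw [a2, a3] at b2
  rw [a4] at b1
  rw [e1, tri_tw_a T l (l + 1), tri_tw_c T (2 * l - 1) l']
  have a5 : 2 * l - 1 + 2 = 2 * l + 1 := by omega
  rw [a5, ← b1, ← b2]
  ring

theorem period {T : ℕ → ZMod 2} {m : ℕ} (h0 : T 0 = 0) (h12 : T 1 = T 2)
    (hU : ∀ j, j + 2 ≤ m → tw T j = 0) : ∀ q, (3 * q ≤ m → T (3 * q) = 0) ∧
      (3 * q + 1 ≤ m → T (3 * q + 1) = T 1) ∧ (3 * q + 2 ≤ m → T (3 * q + 2) = T 1) := by
  intro q
  induction q with
  | zero => exact ⟨fun _ => h0, fun _ => rfl, fun _ => h12.symm⟩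
  | succ q ih =>
    obtain ⟨i0, i1, i2⟩ := ih
    have key : ∀ j, j + 3 ≤ m → T (j + 3) = T j := by
      intro j hj
      have a := hU j (by omega)
      have b := hU (j + 1) (by omega)
      unfold tw at a b
      have e1 : j + 1 + 1 = j + 2 := rfl
      have e2 : j + 1 + 2 = j + 3 := by omega
      rw [e1, e2] at b
      have c1 := z2_add_self (T (j + 1))
      have c2 := z2_add_self (T (j + 2))
      have c3 := z2_add_self (T j)
      linear_combination a + b - c1 - c2 - c3
    refine ⟨fun hm => ?_, fun hm => ?_, fun hm => ?_⟩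
    · have e : 3 * (q + 1) = 3 * q + 3 := by ring
      rw [e, key _ (by omega), i0 (by omega)]
    · have e : 3 * (q + 1) + 1 = 3 * q + 1 + 3 := by ring
      rw [e, key _ (by omega), i1 (by omega)]
    · have e : 3 * (q + 1) + 2 = 3 * q + 2 + 3 := by ring
      rw [e, key _ (by omega), i2 (by omega)]

theorem concl_of_U {T : ℕ → ZMod 2} {m : ℕ} (h : Sym3 T m) (h12 : T 1 = T 2)
    (hU : ∀ j, j + 2 ≤ m → tw T j = 0) :
    (∀ i ≤ m, T i = 0) ∨ (m % 3 = 0 ∧ ∀ i ≤ m, T i = if i % 3 = 0 then 0 else 1) := by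
  have hp := period h.zero h12 hU
  have hb : ∀ a : ZMod 2, a = 0 ∨ a = 1 := by decide
  have hmod : ∀ i, i = 3 * (i / 3) ∨ i = 3 * (i / 3) + 1 ∨ i = 3 * (i / 3) + 2 := by
    intro i; omega
  rcases hb (T 1) with h1 | h1
  · left
    intro i hi
    rcases hmod i with h2 | h2 | h2
    · rw [h2]; exact (hp (i / 3)).1 (by omega)
    · rw [h2, ← h1]; exact (hp (i / 3)).2.1 (by omega)
    · rw [h2, ← h1]; exact (hp (i / 3)).2.2 (by omega)
  · right
    have hall : ∀ i ≤ m, T i = if i % 3 = 0 then 0 else 1 := by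
      intro i hi
      rcases hmod i with h2 | h2 | h2
      · rw [if_pos (by omega), h2]; exact (hp (i / 3)).1 (by omega)
      · rw [if_neg (by omega), h2, ← h1]; exact (hp (i / 3)).2.1 (by omega)
      · rw [if_neg (by omega), h2, ← h1]; exact (hp (i / 3)).2.2 (by omega)
    refine ⟨?_, hall⟩
    by_contra h3
    have h4 := hall m le_rfl
    rw [if_neg h3, h.palin m le_rfl, Nat.sub_self, h.zero] at h4
    exact absurd h4 (by decide)

theorem even_concl {T : ℕ → ZMod 2} {m : ℕ} (h : Sym3 T m) (M : ℕ) (hm : m = 2 * M)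
    (hmid : T M = 0) (ho : ∀ l < M, tw T (2 * l) = 0)
    (hv : ∀ l, 1 ≤ l → l < M → tri T l (l + 1) + tri T (2 * l - 1) (M - l) = tw T (2 * l - 1)) :
    (∀ i ≤ m, T i = 0) ∨ (m % 3 = 0 ∧ ∀ i ≤ m, T i = if i % 3 = 0 then 0 else 1) := by
  rcases Nat.lt_or_ge M 3 with hM | hM
  · left
    intro i hi
    have hl : T m = 0 := by rw [h.palin m le_rfl, Nat.sub_self, h.zero]
    rcases Nat.eq_zero_or_pos i with h0 | h0
    · subst h0; exact h.zero
    rcases Nat.eq_zero_or_pos (m - i) with h5 | h5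
    · have : i = m := by omega
      rw [this]; exact hl
    rcases Nat.lt_or_ge M 2 with h2 | h2
    · have hM1 : M = 1 := by omega
      subst hM1
      have : i = 1 := by omega
      rw [this]; exact hmid
    · have hM2 : M = 2 := by omega
      subst hM2
      subst hm
      have h6 := ho 0 (by omega)
      have h7 : T 0 + T 1 + T 2 = 0 := h6
      rw [h.zero, hmid] at h7
      have h8 : T 1 = 0 := by linear_combination h7
      have h9 := h.palin 3 (by omega)
      have : i = 1 ∨ i = 2 ∨ i = 3 := by omega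
      rcases this with rfl | rfl | rfl
      · exact h8
      · exact hmid
      · rw [h9]; exact h8
  have hS := tw_S3 h (by omega : 2 ≤ m)
  have hU0 : tw T 0 = 0 := ho 0 (by omega)
  have h12 : T 1 = T 2 := by
    have h7 : T 0 + T 1 + T 2 = 0 := hU0
    rw [h.zero] at h7
    have := z2_add_self (T 2)
    linear_combination h7 - this
  have hU1 : tw T 1 = 0 := by
    have h1 := hS.swap 2 1 (by omega)
    have h2 : tri (tw T) 1 2 = tw T 2 + tw T 3 := rfl
    rw [tri_step, h2] at h1
    have h3 : tri (tw T) 0 1 = tw T 1 := rfl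
    have h4 : tri (tw T) 0 (1 + 2) = tw T 3 := rfl
    rw [h3, h4, ho 1 (by omega)] at h1
    linear_combination h1
  rcases Nat.lt_or_ge M 4 with hM4 | hM4
  · refine concl_of_U h h12 ?_
    have hM3 : M = 3 := by omega
    subst hM3
    subst hm
    intro j hj
    have : j = 0 ∨ j = 1 ∨ j = 2 ∨ j = 3 ∨ j = 4 := by omega
    rcases this with rfl | rfl | rfl | rfl | rfl
    · exact hU0
    · exact hU1
    · exact ho 1 (by omega)
    · have h1 := hS.rev 0 3 (by omega)
      show tri (tw T) 0 3 = 0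
      rw [h1]
      exact hU1
    · exact ho 2 (by omega)
  obtain ⟨r, rfl⟩ : ∃ r, M = r + 4 := ⟨M - 4, by omega⟩
  have hstep : ∀ j ≤ 2 * r, tw T (j + 2) + tw T (j + 4) = 0 := by
    refine desc r (fun t => tw T (t + 2) + tw T (t + 4)) ⟨?_, ?_⟩ ?_ ?_
    · intro i j hij
      rw [tri_sh, tri_sh]
      exact hS.swap _ _ (by omega)
    · intro i j hij
      rw [tri_sh, tri_sh, hS.rev _ _ (by omega)]
      congr 1
      omega
    · intro i hi
      have a := ho (i + 1) (by omega)
      have b := ho (i + 2) (by omega)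
      show tw T (2 * i + 2) + tw T (2 * i + 4) = 0
      have e1 : 2 * i + 2 = 2 * (i + 1) := by ring
      have e2 : 2 * i + 4 = 2 * (i + 2) := by ring
      rw [e1, e2, a, b, add_zero]
    · intro i i' hii
      rw [tri_sh, tri_sh]
      have c := cond_U h (r + 4) hm hv (i + 2) (i' + 2) (by omega) (by omega) (by omega)
      have e1 : i + 1 + 2 = i + 2 + 1 := by ring
      have e2 : i' + 1 + 2 = i' + 2 + 1 := by ring
      rw [e1, e2, c]
      show tw T (2 * i + 1 + 2) + tw T (2 * i + 1 + 4) = _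
      congr 2 <;> omega
  have hodd : ∀ q, 2 * q + 3 ≤ 2 * r + 3 → tw T (2 * q + 3) = tw T 3 := by
    intro q
    induction q with
    | zero => intro _; rfl
    | succ q ih =>
      intro hq
      have a := hstep (2 * q + 1) (by omega)
      have e1 : 2 * q + 1 + 2 = 2 * q + 3 := by ring
      have e2 : 2 * q + 1 + 4 = 2 * (q + 1) + 3 := by ring
      rw [e1, e2, ih (by omega)] at a
      have b := z2_add_self (tw T (2 * (q + 1) + 3))
      linear_combination b - a
  have hT3 : T 3 = 0 := by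
    have a : T 1 + T 2 + T 3 = 0 := hU1
    rw [h12] at a
    have b := z2_add_self (T 2)
    linear_combination a - b
  have hT4 : T 4 = T 2 := by
    have a : T 2 + T 3 + T 4 = 0 := ho 1 (by omega)
    rw [hT3] at a
    have b := z2_add_self (T 2)
    linear_combination a - b
  have hmp1 : T (r + 5) = T (r + 3) := by
    rw [h.palin (r + 5) (by omega)]
    congr 1; omega
  have hmp2 : T (r + 6) = T (r + 2) := by
    rw [h.palin (r + 6) (by omega)]
    congr 1; omega
  have hm1 : T (r + 3) = T 2 := by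
    have a := hv 1 le_rfl (by omega)
    have b : tri T 1 (1 + 1) = T 2 + T 3 := rfl
    have c : tri T (2 * 1 - 1) (r + 4 - 1) = T (r + 3) + T (r + 4) := by
      have e : r + 4 - 1 = r + 3 := by omega
      rw [e]; rfl
    have d : tw T (2 * 1 - 1) = 0 := hU1
    rw [b, c, d, hT3, hmid] at a
    have b2 := z2_add_self (T 2)
    linear_combination a - b2
  have hm2 : T (r + 2) = T 2 := by
    have a := hv 2 (by omega) (by omega)
    have b : tri T 2 (2 + 1) = T 3 + T 5 := by
      have e := tri_step T 0 3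
      exact e
    have c : tri T (2 * 2 - 1) (r + 4 - 2) = T (r + 2) + T (r + 3) + T (r + 4) + T (r + 5) := by
      have e : r + 4 - 2 = r + 2 := by omega
      have e2 : 2 * 2 - 1 = 1 + 2 := rfl
      rw [e, e2, tri_step]
      show (T (r + 2) + T (r + 2 + 1)) + (T (r + 2 + 2) + T (r + 2 + 2 + 1)) = _
      have e3 : r + 2 + 1 = r + 3 := rfl
      have e4 : r + 2 + 2 = r + 4 := rfl
      have e5 : r + 2 + 2 + 1 = r + 5 := rfl
      rw [e3, e4]
      ring
    have d : tw T (2 * 2 - 1) = T 3 + T 4 + T 5 := rfl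
    rw [b, c, d, hmid, hmp1, hT4] at a
    have b1 := z2_add_self (T (r + 3))
    have b2 := z2_add_self (T 5)
    linear_combination a - b1
  have hu : tw T 3 = 0 := by
    have hsum : T (r + 3) + T (r + 6) = tw T (r + 3) + tw T (r + 4) := by
      have a1 : tw T (r + 3) = T (r + 3) + T (r + 4) + T (r + 5) := rfl
      have a2 : tw T (r + 4) = T (r + 4) + T (r + 5) + T (r + 6) := rfl
      rw [a1, a2]
      have b1 := z2_add_self (T (r + 4))
      have b2 := z2_add_self (T (r + 5))
      linear_combination -b1 - b2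
    rw [hmp2, hm1, hm2, z2_add_self] at hsum
    rcases Nat.even_or_odd r with hr | hr
    · obtain ⟨a, ha⟩ := hr
      have e1 : r + 3 = 2 * a + 3 := by omega
      have e2 : r + 4 = 2 * (a + 2) := by omega
      rw [e1, e2, hodd a (by omega), ho (a + 2) (by omega), add_zero] at hsum
      exact hsum.symm
    · obtain ⟨a, ha⟩ := hr
      have e1 : r + 4 = 2 * (a + 1) + 3 := by omega
      have e2 : r + 3 = 2 * (a + 2) := by omega
      rw [e1, e2, hodd (a + 1) (by omega), ho (a + 2) (by omega), zero_add] at hsum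
      exact hsum.symm
  refine concl_of_U h h12 ?_
  intro j hj
  rcases Nat.even_or_odd j with hj2 | hj2
  · obtain ⟨a, ha⟩ := hj2
    have : j = 2 * a := by omega
    rw [this]
    exact ho a (by omega)
  · obtain ⟨a, ha⟩ := hj2
    rcases Nat.eq_zero_or_pos a with ha0 | ha0
    · subst ha0
      rw [ha]; exact hU1
    rcases Nat.lt_or_ge (2 * r + 3) j with h1 | h1
    · have h2 := hS.rev 0 j (by omega)
      show tri (tw T) 0 j = 0
      rw [h2]
      have e : m - 2 - 0 - j = 1 := by omega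
      rw [e]; exact hU1
    · have e : j = 2 * (a - 1) + 3 := by omega
      rw [e, hodd (a - 1) (by omega), hu]

end Pool.Agent.H56.EV
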