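import Pool.Agent.H56.EV.Defs

/-! Even number of letters: the degrees of a D3-symmetric matrix modulo 4. -/

namespace Pool.Agent.H56.EV
open Finset Pool.Agent.H61.Stein

theorem mid_zero {m : ℕ} (s : Fin m → ZMod 2) (he : ∀ i, Even (deg s i)) (h : Sym3 (ext s) m)
    (M : ℕ) (hm : m = 2 * M) (hM : 1 ≤ M) : ext s M = 0 := by
  obtain ⟨k, rfl⟩ : ∃ k, M = k + 1 := ⟨M - 1, by omega⟩
  have h1 := he 0
  have hlast : ext s m = 0 := by rw [h.palin m le_rfl, Nat.sub_self, h.zero]
  have hw : weight s = ∑ p ∈ range (2 * k + 1), (ext s (p + 1)).val := by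
    rw [weight_eq]
    have e1 : range m = range (2 * k + 1 + 1) := by rw [show m = 2 * k + 1 + 1 by omega]
    rw [e1, sum_range_succ]
    have e2 : ext s (2 * k + 1 + 1) = 0 := by
      rw [← hlast]; congr 1; omega
    rw [e2, ZMod.val_zero, add_zero]
  rw [deg_zero, hw, sum_palin_odd (fun p => (ext s (p + 1)).val) k] at h1
  · have h2 : Even ((ext s (k + 1)).val) := (Nat.even_add.1 h1).1 (even_two_mul _)
    have key : ∀ a : ZMod 2, Even a.val → a = 0 := by decide
    exact key _ h2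
  · intro p hp
    show (ext s (p + 1)).val = (ext s (2 * k - p + 1)).val
    rw [h.palin (p + 1) (by omega)]
    congr 2
    omega

theorem g2_entry_diag {e : ℕ → ZMod 2} {m : ℕ} (h : Sym3 e m) (c : ℕ) (hc : c ≤ m) :
    entry e c c = e c := by
  have h1 := entry_tri e c 0
  rw [Nat.add_zero] at h1
  rw [h1, h.tri0 _ hc]

theorem g2_entry_swap {e : ℕ → ZMod 2} {m : ℕ} (h : Sym3 e m) (c j : ℕ) (hc : c ≤ m)
    (hj : j ≤ c) : entry e j c = entry e (c - j) c := by
  have a3 : entry e j c = tri e j (c - j) := by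
    have a1 : c = j + (c - j) := by omega
    conv_lhs => rw [a1]
    exact entry_tri e j _
  have a4 : entry e (c - j) c = tri e (c - j) j := by
    have a2 : c = c - j + j := by omega
    conv_lhs => rw [a2]
    have a5 : c - j + j - j = c - j := by omega
    rw [a5]
    exact entry_tri e _ _
  rw [a3, a4]
  exact h.swap _ _ (by omega)

theorem g2_col {e : ℕ → ZMod 2} {m : ℕ} (h : Sym3 e m) (c : ℕ) (hc : c ≤ m) :
    ∑ j ∈ range c, (mt e c j).val + (e c).val = ∑ j ∈ range (c + 1), (entry e j c).val := by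
  rw [sum_range_succ, g2_entry_diag h c hc]
  congr 1
  refine sum_congr rfl fun j hj => ?_
  rw [mem_range] at hj
  unfold Pool.Agent.H61.Stein.mt
  rw [if_neg (by omega), if_pos (by omega)]

theorem g2_row {e : ℕ → ZMod 2} {m : ℕ} (h : Sym3 e m) (c : ℕ) (hc : c ≤ m) :
    ∑ j ∈ Ioc c m, (mt e c j).val + (e c).val = ∑ p ∈ range (m - c + 1), (tri e c p).val := by
  rw [sum_range_succ', h.tri0 c hc]
  congr 1
  have hI : Ioc c m = Ico (c + 1) (m + 1) := by
    ext j; simp only [mem_Ico, mem_Ioc]; omega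
  rw [hI, Finset.sum_Ico_eq_sum_range]
  have e1 : m + 1 - (c + 1) = m - c := by omega
  rw [e1]
  refine sum_congr rfl fun p hp => ?_
  rw [mem_range] at hp
  congr 1
  unfold Pool.Agent.H61.Stein.mt
  rw [if_pos (by omega)]
  have e2 : c + 1 + p = c + (p + 1) := by omega
  rw [e2, entry_tri]

theorem g2_dg {e : ℕ → ZMod 2} {m : ℕ} (h : Sym3 e m) (c : ℕ) (hc : c ≤ m) :
    dg e m c + 2 * (e c).val =
      ∑ j ∈ range (c + 1), (entry e j c).val + ∑ p ∈ range (m - c + 1), (tri e c p).val := by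
  have h5 : (mt e c c).val = 0 := by
    unfold Pool.Agent.H61.Stein.mt
    rw [if_neg (by omega), if_neg (by omega)]
    rfl
  have h1 := g2_col h c hc
  have h2 := g2_row h c hc
  unfold dg
  rw [sum_split _ m c hc, h5]
  omega

/-- halving: from the doubled sums to `w` -/
theorem g2_fin (e : ℕ → ZMod 2) (m c A B : ℕ)
    (h : dg e m c + 2 * (e c).val = 2 * A + 2 * B) :
    ∃ w : ℕ, dg e m c = 2 * w ∧ (w : ZMod 2) = (A : ZMod 2) + (B : ZMod 2) + e c := by
  refine ⟨A + B - (e c).val, by omega, ?_⟩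
  have h1 : (A + B - (e c).val) + (e c).val = A + B := by omega
  have h2 := congrArg (fun n : ℕ => (n : ZMod 2)) h1
  simp only [Nat.cast_add, ZMod.natCast_val, ZMod.cast_id', id] at h2
  have h3 := z2_add_self (e c)
  linear_combination h2 - h3

theorem form_o {e : ℕ → ZMod 2} {m : ℕ} (h : Sym3 e m) (M l : ℕ) (hm : m = 2 * M) (hl : l < M)
    (h0 : e M = 0) :
    ∃ w : ℕ, dg e m (2 * l + 1) = 2 * w ∧ (w : ZMod 2) = tw e (2 * l) := by
  have hc : 2 * l + 1 ≤ m := by omega
  have hcol : ∑ j ∈ range (2 * l + 1 + 1), (entry e j (2 * l + 1)).val =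
      2 * ∑ j ∈ range (l + 1), (entry e j (2 * l + 1)).val := by
    rw [show 2 * l + 1 + 1 = 2 * (l + 1) by ring, pair_sum, mul_sum]
    refine sum_congr rfl fun j hj => ?_
    rw [mem_range] at hj
    have h1 := g2_entry_swap h (2 * l + 1) j hc (by omega)
    have e1 : 2 * (l + 1) - 1 - j = 2 * l + 1 - j := by omega
    rw [e1, ← h1]
    ring
  have hrow : ∑ p ∈ range (m - (2 * l + 1) + 1), (tri e (2 * l + 1) p).val =
      2 * ∑ p ∈ range (M - l), (tri e (2 * l + 1) p).val := by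
    rw [show m - (2 * l + 1) + 1 = 2 * (M - l) by omega, pair_sum, mul_sum]
    refine sum_congr rfl fun p hp => ?_
    rw [mem_range] at hp
    have h1 := h.rev (2 * l + 1) p (by omega)
    have e1 : 2 * (M - l) - 1 - p = m - (2 * l + 1) - p := by omega
    rw [e1, ← h1]
    ring
  obtain ⟨w, hw1, hw2⟩ := g2_fin e m (2 * l + 1)
    (∑ j ∈ range (l + 1), (entry e j (2 * l + 1)).val)
    (∑ p ∈ range (M - l), (tri e (2 * l + 1) p).val)
    (by rw [g2_dg h _ hc, hcol, hrow])
  refine ⟨w, hw1, ?_⟩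
  rw [hw2, Nat.cast_sum, Nat.cast_sum]
  simp only [ZMod.natCast_val, ZMod.cast_id', id]
  rw [col_part, row_part]
  have h1 : entry e (l + 1) (2 * l + 1 + 1) = 0 := by
    have e1 : 2 * l + 1 + 1 = l + 1 + (l + 1) := by omega
    rw [e1, entry_tri]
    rcases Nat.lt_or_ge (l + 1) M with h2 | h2
    · exact h.diag (l + 1) (by omega)
    · have e2 : l + 1 = M := by omega
      rw [e2, h.rev M M (by omega)]
      have e3 : m - M - M = 0 := by omega
      rw [e3, h.tri0 M (by omega), h0]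
  have h2 : tri e (2 * l) (M - l) = 0 := by
    rcases Nat.eq_zero_or_pos l with h3 | h3
    · subst h3
      show e (M - 0) = 0
      rw [Nat.sub_zero, h0]
    · obtain ⟨i, hi⟩ : ∃ i, 2 * l = i + 1 := ⟨2 * l - 1, by omega⟩
      rw [hi]
      exact h.mid i (M - l) (by omega)
  rw [h1, h2, h.tri0 (2 * l) (by omega)]
  unfold tw
  have e4 : 2 * l + 1 + 1 = 2 * l + 2 := rfl
  rw [e4]
  ring

theorem form_e {e : ℕ → ZMod 2} {m : ℕ} (h : Sym3 e m) (M l : ℕ) (hm : m = 2 * M) (h1 : 1 ≤ l)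
    (hl : l < M) :
    ∃ w : ℕ, dg e m (2 * l) = 2 * w ∧
      (w : ZMod 2) = tw e (2 * l - 1) + tri e l (l + 1) + tri e (2 * l - 1) (M - l) := by
  have hc : 2 * l ≤ m := by omega
  have hmidc : entry e l (2 * l) = 0 := by
    have e1 : 2 * l = l + l := by omega
    rw [e1, entry_tri]
    exact h.diag l (by omega)
  obtain ⟨i, hi⟩ : ∃ i, 2 * l = i + 1 := ⟨2 * l - 1, by omega⟩
  have hmidr : tri e (2 * l) (M - l) = 0 := by
    rw [hi]
    exact h.mid i (M - l) (by omega)
  have hcol : ∑ j ∈ range (2 * l + 1), (entry e j (2 * l)).val =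
      2 * ∑ j ∈ range l, (entry e j (2 * l)).val := by
    rw [sum_palin_odd (fun j => (entry e j (2 * l)).val) l]
    · rw [hmidc, ZMod.val_zero, add_zero]
    · intro j hj
      show (entry e j (2 * l)).val = (entry e (2 * l - j) (2 * l)).val
      rw [g2_entry_swap h (2 * l) j hc hj]
  have hrow : ∑ p ∈ range (m - 2 * l + 1), (tri e (2 * l) p).val =
      2 * ∑ p ∈ range (M - l), (tri e (2 * l) p).val := by
    rw [show m - 2 * l + 1 = 2 * (M - l) + 1 by omega,
      sum_palin_odd (fun p => (tri e (2 * l) p).val) (M - l)]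
    · rw [hmidr, ZMod.val_zero, add_zero]
    · intro p hp
      show (tri e (2 * l) p).val = (tri e (2 * l) (2 * (M - l) - p)).val
      rw [h.rev (2 * l) p (by omega)]
      congr 2
      omega
  obtain ⟨w, hw1, hw2⟩ := g2_fin e m (2 * l)
    (∑ j ∈ range l, (entry e j (2 * l)).val)
    (∑ p ∈ range (M - l), (tri e (2 * l) p).val)
    (by rw [g2_dg h _ hc, hcol, hrow])
  refine ⟨w, hw1, ?_⟩
  rw [hw2, Nat.cast_sum, Nat.cast_sum]
  simp only [ZMod.natCast_val, ZMod.cast_id', id]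
  have hcp : ∑ j ∈ range l, entry e j (2 * l) = e (2 * l + 1) + tri e l (l + 1) := by
    rw [col_part]
    have e1 : 2 * l + 1 = l + (l + 1) := by omega
    have e2 : entry e l (2 * l + 1) = tri e l (l + 1) := by
      rw [e1, entry_tri]
    rw [e2]
  have hrp : ∑ p ∈ range (M - l), tri e (2 * l) p
      = e (2 * l - 1) + tri e (2 * l - 1) (M - l) := by
    have e1 : 2 * l - 1 = i := by omega
    rw [e1, hi, row_part, h.tri0 i (by omega)]
  rw [hcp, hrp]
  unfold tw
  have e5 : 2 * l - 1 + 1 = 2 * l := by omega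
  have e6 : 2 * l - 1 + 2 = 2 * l + 1 := by omega
  rw [e5, e6]
  ring

end Pool.Agent.H56.EV
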