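import Pool.Agent.H56.EV.F3

/-! The middle vertex. -/

namespace Pool.Agent.H56.EV

open Finset Pool.Agent.H61.Stein

theorem val_mul (a c : ZMod 2) : (a + c).val + 2 * (a * c).val = a.val + c.val := by
  revert a c; decide

/-- The number of common edges at the middle vertex is divisible by `4`. -/
theorem common_mid {e T : ℕ → ZMod 2} {m : ℕ} (he : Sym3 e m) (hT : Sym3 T m) (M : ℕ)
    (hm : m = 2 * M) (h0 : e M = 0) :
    4 ∣ ∑ j ∈ range (m + 1), (H61.Stein.mt e M j * H61.Stein.mt T M j).val := by
  set g : ℕ → ℕ := fun j => (tri e j (M - j) * tri T j (M - j)).val with hg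
  have hg0 : g 0 = 0 := by
    show (tri e 0 (M - 0) * tri T 0 (M - 0)).val = 0
    have : tri e 0 (M - 0) = 0 := h0
    rw [this, zero_mul]; rfl
  have hsym : ∀ j ≤ M, g j = g (M - j) := by
    intro j hj
    show (tri e j (M - j) * tri T j (M - j)).val =
      (tri e (M - j) (M - (M - j)) * tri T (M - j) (M - (M - j))).val
    have e1 : M - (M - j) = j := by omega
    rw [e1, he.swap j (M - j) (by omega), hT.swap j (M - j) (by omega)]
  have hgM : g M = 0 := by
    rw [hsym M le_rfl, Nat.sub_self, hg0]
  have hcol : ∑ j ∈ range M, (H61.Stein.mt e M j * H61.Stein.mt T M j).val =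
      ∑ j ∈ range M, g j := by
    refine sum_congr rfl fun j hj => ?_
    rw [mem_range] at hj
    have a1 : ∀ x : ℕ → ZMod 2, H61.Stein.mt x M j = tri x j (M - j) := by
      intro x
      unfold H61.Stein.mt
      rw [if_neg (by omega), if_pos hj]
      have := entry_tri x j (M - j)
      have e1 : j + (M - j) = M := by omega
      rw [e1] at this
      exact this
    rw [a1 e, a1 T]
  have hrow : ∑ j ∈ Ioc M m, (H61.Stein.mt e M j * H61.Stein.mt T M j).val =
      ∑ p ∈ range M, g (p + 1) := by
    have hI : Ioc M m = Ico (M + 1) (m + 1) := by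
      apply Finset.ext
      intro j
      simp only [mem_Ico, mem_Ioc]; omega
    rw [hI, Finset.sum_Ico_eq_sum_range]
    have e1 : m + 1 - (M + 1) = M := by omega
    rw [e1]
    refine sum_congr rfl fun p hp => ?_
    rw [mem_range] at hp
    have a1 : ∀ x : ℕ → ZMod 2, Sym3 x m →
        H61.Stein.mt x M (M + 1 + p) = tri x (p + 1) (M - (p + 1)) := by
      intro x hx
      unfold H61.Stein.mt
      rw [if_pos (by omega)]
      have := entry_tri x M (p + 1)
      have e2 : M + (p + 1) = M + 1 + p := by omega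
      rw [e2] at this
      rw [this, hx.swap M (p + 1) (by omega), hx.rev (p + 1) M (by omega)]
      congr 1
      omega
    rw [a1 e he, a1 T hT]
  have hmid : H61.Stein.mt e M M = 0 := by
    unfold H61.Stein.mt
    rw [if_neg (by omega), if_neg (by omega)]
  have hshift : ∑ p ∈ range M, g (p + 1) = ∑ p ∈ range M, g p := by
    have a := sum_range_succ g M
    have b := sum_range_succ' g M
    omega
  have heven : 2 ∣ ∑ j ∈ range M, g j := by
    have a := sum_range_succ g M
    rw [hgM] at a
    have a' : ∑ j ∈ range M, g j = ∑ x ∈ range (M + 1), g x := a.symm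
    rw [a']
    rcases Nat.even_or_odd M with hM | hM
    · obtain ⟨r, hr⟩ := hM
      have e1 : M + 1 = 2 * r + 1 := by clear a a'; omega
      rw [e1, sum_palin_odd g r (by
        intro p hp
        rw [hsym p (by omega)]
        congr 1
        omega)]
      have h2 : g r = 0 := by
        rcases Nat.eq_zero_or_pos r with hr0 | hr0
        · rw [hr0]; exact hg0
        show (tri e r (M - r) * tri T r (M - r)).val = 0
        have e2 : M - r = r := by omega
        rw [e2, he.diag r (by omega), zero_mul]; rfl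
      rw [h2]
      exact ⟨_, by ring⟩
    · obtain ⟨r, hr⟩ := hM
      have e1 : M + 1 = 2 * (r + 1) := by clear a a'; omega
      rw [e1, pair_sum]
      refine Finset.dvd_sum fun j hj => ?_
      rw [mem_range] at hj
      rw [hsym j (by omega)]
      have e2 : M - j = 2 * (r + 1) - 1 - j := by omega
      rw [e2]
      exact ⟨_, by ring⟩
  rw [sum_split _ m M (by omega), hcol, hrow, hmid, zero_mul, hshift]
  have : (0 : ZMod 2).val = 0 := rfl
  rw [this]
  obtain ⟨t, ht⟩ := heven
  exact ⟨t, by omega⟩

/-- The triangle of the sequence `0 1 1 0 1 1 …`. -/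
theorem tri_three (i : ℕ) : ∀ j,
    tri (fun t => if t % 3 = 0 then (0 : ZMod 2) else 1) i j = if i % 3 = j % 3 then 0 else 1 := by
  induction i with
  | zero =>
    intro j
    show (if j % 3 = 0 then (0 : ZMod 2) else 1) = if 0 % 3 = j % 3 then 0 else 1
    by_cases h : j % 3 = 0
    · rw [if_pos h, if_pos (by omega)]
    · rw [if_neg h, if_neg (by omega)]
  | succ i ih =>
    intro j
    show tri _ i j + tri _ i (j + 1) = _
    rw [ih, ih]
    have h : i % 3 = j % 3 ∨ i % 3 = (j + 1) % 3 ∨ i % 3 = (j + 2) % 3 := by omega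
    rcases h with h | h | h
    · rw [if_pos h, if_neg (by omega), if_neg (by omega)]; decide
    · rw [if_neg (by omega), if_pos h, if_neg (by omega)]; decide
    · rw [if_neg (by omega), if_neg (by omega), if_pos (by omega)]; decide

theorem sum_three (q : ℕ) : ∑ j ∈ range (3 * q + 1), (if j % 3 = 0 then 0 else 1) = 2 * q := by
  induction q with
  | zero => rfl
  | succ q ih =>
    have e : 3 * (q + 1) + 1 = 3 * q + 1 + 1 + 1 + 1 := by ring
    rw [e, sum_range_succ, sum_range_succ, sum_range_succ, ih, if_neg (by omega),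
      if_neg (by omega), if_pos (by omega)]
    ring

/-- Sum `(110)^k`: the number `k` is divisible by `4`. -/
theorem mid_mod {m : ℕ} (s₁ s₂ : Fin m → ZMod 2) (M : ℕ) (hm : m = 2 * M)
    (h1 : Sym3 (ext s₁) m) (h2 : Sym3 (ext s₂) m) (hz : ext s₁ M = 0) (h3 : m % 3 = 0)
    (hT : ∀ i ≤ m, ext (s₁ + s₂) i = if i % 3 = 0 then 0 else 1)
    (hd : dg (ext s₁) m M = dg (ext s₂) m M) : m % 12 = 0 := by
  have hTS : Sym3 (ext (s₁ + s₂)) m := by
    rw [ext_add']
    exact h1.add h2
  obtain ⟨X, hX⟩ := common_mid h1 hTS M hm hz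
  have hsum : dg (ext s₂) m M +
      2 * ∑ j ∈ range (m + 1), (H61.Stein.mt (ext s₁) M j * H61.Stein.mt (ext (s₁ + s₂)) M j).val =
      dg (ext s₁) m M + dg (ext (s₁ + s₂)) m M := by
    unfold dg
    rw [mul_sum, ← sum_add_distrib, ← sum_add_distrib]
    refine sum_congr rfl fun j _ => ?_
    have e1 : H61.Stein.mt (ext (s₁ + s₂)) M j =
        H61.Stein.mt (ext s₁) M j + H61.Stein.mt (ext s₂) M j := by
      rw [ext_add', mt_add]
    have e2 : H61.Stein.mt (ext s₂) M j =
        H61.Stein.mt (ext s₁) M j + H61.Stein.mt (ext (s₁ + s₂)) M j := by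
      rw [e1]
      have := z2_add_self (H61.Stein.mt (ext s₁) M j)
      linear_combination -this
    rw [e2]
    exact val_mul _ _
  have hdT : dg (ext (s₁ + s₂)) m M = 8 * X := by
    rw [hX] at hsum; omega
  have hM3 : M % 3 = 0 := by omega
  have hloc : ∀ i j, i + j ≤ m → tri (ext (s₁ + s₂)) i j = if i % 3 = j % 3 then 0 else 1 := by
    intro i j hij
    rw [← tri_three i j]
    exact tri_local _ _ m hT i j hij
  have hrow : ∀ j ∈ range (m + 1), (H61.Stein.mt (ext (s₁ + s₂)) M j).val =
      if j % 3 = 0 then 0 else 1 := by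
    intro j hj
    rw [mem_range] at hj
    unfold H61.Stein.mt
    rcases lt_trichotomy M j with h | h | h
    · rw [if_pos h]
      obtain ⟨p, rfl⟩ : ∃ p, j = M + p := ⟨j - M, by omega⟩
      rw [entry_tri, hloc M p (by omega)]
      by_cases h5 : (M + p) % 3 = 0
      · rw [if_pos (by omega), if_pos h5]; rfl
      · rw [if_neg (by omega), if_neg h5]; rfl
    · subst h
      rw [if_neg (by omega), if_neg (by omega), if_pos hM3]; rfl
    · rw [if_neg (by omega), if_pos h]
      have e1 := entry_tri (ext (s₁ + s₂)) j (M - j)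
      have e2 : j + (M - j) = M := by omega
      rw [e2] at e1
      rw [e1, hloc j (M - j) (by omega)]
      by_cases h5 : j % 3 = 0
      · rw [if_pos (by omega), if_pos h5]; rfl
      · rw [if_neg (by omega), if_neg h5]; rfl
  have hdT2 : dg (ext (s₁ + s₂)) m M = 2 * (m / 3) := by
    unfold dg
    rw [sum_congr rfl hrow]
    have e : m + 1 = 3 * (m / 3) + 1 := by omega
    rw [e]
    exact sum_three _
  omega

end Pool.Agent.H56.EV
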