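import Pool.Agent.H56.EV.G1
import Pool.Agent.H56.EV.G2
import Pool.Agent.H56.EV.F1
import Pool.Agent.H56.EV.F3
import Pool.Agent.H56.EV.Mid

/-! MP_7bce3d_co, even degrees and symmetric rows: composition. -/

namespace Pool.Agent.H56.EV

open Finset Pool.Agent.H61.Stein

theorem tw_add (e f : ℕ → ZMod 2) (i : ℕ) : tw (fun k => e k + f k) i = tw e i + tw f i := by
  unfold tw; ring

/-- two sums of the same parity data. -/
theorem w_sum {d₁ d₂ w₁ w₂ : ℕ} {a₁ a₂ : ZMod 2} (h1 : d₁ = 2 * w₁) (h2 : d₂ = 2 * w₂)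
    (hw1 : (w₁ : ZMod 2) = a₁) (hw2 : (w₂ : ZMod 2) = a₂) (h : d₁ ≡ d₂ [MOD 4]) : a₁ + a₂ = 0 := by
  have h3 : w₁ ≡ w₂ [MOD 2] := by
    unfold Nat.ModEq at h ⊢; omega
  have h4 : (w₁ : ZMod 2) = (w₂ : ZMod 2) := (ZMod.natCast_eq_natCast_iff _ _ _).2 h3
  rw [← hw1, ← hw2, h4]
  exact z2_add_self _

theorem sum_eq_zero_iff {m : ℕ} (s₁ s₂ : Fin m → ZMod 2)
    (h : ∀ i ≤ m, ext s₁ i + ext s₂ i = 0) : s₁ = s₂ := by
  funext i
  have h1 := h ((i : ℕ) + 1) (by omega)
  have e1 : ∀ s : Fin m → ZMod 2, ext s ((i : ℕ) + 1) = s i := by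
    intro s
    unfold H61.Stein.ext
    rw [dif_pos ⟨by omega, by omega⟩]
    congr 1
  rw [e1, e1] at h1
  exact (CharTwo.add_eq_zero).1 h1

theorem ext_val {m : ℕ} (s : Fin m → ZMod 2) (i : Fin m) : ext s ((i : ℕ) + 1) = s i := by
  unfold H61.Stein.ext
  rw [dif_pos ⟨by omega, by omega⟩]
  congr 1

/-- the weight of a symmetric sequence with `m = 2 K + 1`. -/
theorem weight_sym {m : ℕ} (s : Fin m → ZMod 2) (h : Sym3 (ext s) m) (K : ℕ) (hm : m = 2 * K + 1) :
    deg s 0 = 2 * ∑ k ∈ range K, (ext s (k + 1)).val := by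
  rw [deg_zero, weight_pairs s K hm, mul_sum]
  have hlast : ext s (2 * K + 1) = 0 := by
    rw [← hm, h.palin m le_rfl, Nat.sub_self, h.zero]
  rw [hlast, ZMod.val_zero, add_zero]
  refine sum_congr rfl fun k hk => ?_
  rw [mem_range] at hk
  have h1 : ext s (2 * K - 1 - k + 1) = ext s (k + 1) := by
    rw [h.palin (2 * K - 1 - k + 1) (by omega)]
    congr 1
    omega
  rw [h1]
  ring

theorem count_mult3 (K : ℕ) :
    (∑ k ∈ range K, (if (k + 1) % 3 = 0 then (1 : ZMod 2) else 0)) = ((K / 3 : ℕ) : ZMod 2) := by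
  induction K with
  | zero => simp
  | succ K ih =>
    rw [sum_range_succ, ih]
    by_cases h : (K + 1) % 3 = 0
    · rw [if_pos h]
      have : (K + 1) / 3 = K / 3 + 1 := by omega
      rw [this]; push_cast; ring
    · rw [if_neg h]
      have : (K + 1) / 3 = K / 3 := by omega
      rw [this]; ring

theorem even_symmetric {m : ℕ} (s₁ s₂ : Fin m → ZMod 2) (hne : s₁ ≠ s₂) (h1 : SymmetricRow s₁)
    (h2 : SymmetricRow s₂) (he1 : ∀ i, Even (deg s₁ i)) (he2 : ∀ i, Even (deg s₂ i))
    (h4 : ∀ i, deg s₁ i ≡ deg s₂ i [MOD 4]) :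
    (m % 6 = 0 ∧ ((∀ i, deg s₁ i = deg s₂ i) → m % 12 = 0) ∧
      ∀ i : Fin m, s₁ i + s₂ i = if ((i : ℕ) + 1) % 3 = 0 then 0 else 1) ∨
    (m % 12 = 3 ∧ ∀ i : Fin m, s₁ i + s₂ i =
      if ((i : ℕ) + 1) % 3 = 0 ∧ (i : ℕ) + 1 < m then 1 else 0) := by
  have S1 := sym3_of_even s₁ he1 h1
  have S2 := sym3_of_even s₂ he2 h2
  have ST := S1.add S2
  have D : ∀ i ≤ m, dg (ext s₁) m i ≡ dg (ext s₂) m i [MOD 4] := by
    intro i hi
    have := h4 ⟨i, by omega⟩
    rw [deg_eq_dg, deg_eq_dg] at this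
    exact this
  rcases Nat.even_or_odd' m with ⟨M, hM | hM⟩
  · -- even
    rcases Nat.eq_zero_or_pos M with h0 | h0
    · exfalso
      apply hne
      funext i
      exact absurd i.2 (by omega)
    have M1 := mid_zero s₁ he1 S1 M hM h0
    have M2 := mid_zero s₂ he2 S2 M hM h0
    have hc := even_concl ST M hM (by show ext s₁ M + ext s₂ M = 0; rw [M1, M2, add_zero])
      (by
        intro l hl
        obtain ⟨w₁, a1, b1⟩ := form_o S1 M l hM hl M1
        obtain ⟨w₂, a2, b2⟩ := form_o S2 M l hM hl M2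
        rw [tw_add]
        exact w_sum a1 a2 b1 b2 (D _ (by omega)))
      (by
        intro l hl1 hl
        obtain ⟨w₁, a1, b1⟩ := form_e S1 M l hM hl1 hl
        obtain ⟨w₂, a2, b2⟩ := form_e S2 M l hM hl1 hl
        have := w_sum a1 a2 b1 b2 (D _ (by omega))
        rw [tw_add, tri_add, tri_add]
        have e1 := z2_add_self (tw (ext s₁) (2 * l - 1))
        have e2 := z2_add_self (tw (ext s₂) (2 * l - 1))
        linear_combination this - e1 - e2)
    rcases hc with hc | ⟨h3, hc⟩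
    · exact absurd (sum_eq_zero_iff s₁ s₂ hc) hne
    · left
      refine ⟨by omega, fun hd => ?_, fun i => ?_⟩
      · refine mid_mod s₁ s₂ M hM S1 S2 M1 h3 (fun i hi => ?_) ?_
        · rw [ext_add]; exact hc i hi
        · have := hd ⟨M, by omega⟩
          rw [deg_eq_dg, deg_eq_dg] at this
          exact this
      have := hc ((i : ℕ) + 1) (by omega)
      rw [ext_val, ext_val] at this
      exact this
  · -- odd
    have hc := odd_concl ST M hM (by
      intro l hl
      obtain ⟨w₁, a1, b1⟩ := form_odd S1 M l hM hl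
      obtain ⟨w₂, a2, b2⟩ := form_odd S2 M l hM hl
      have := w_sum a1 a2 b1 b2 (D _ (by omega))
      rw [cnd_add]
      linear_combination this)
    rcases hc with hc | ⟨h3, hc⟩
    · exact absurd (sum_eq_zero_iff s₁ s₂ hc) hne
    · right
      have hcount : ((M / 3 : ℕ) : ZMod 2) = 0 := by
        have a1 := weight_sym s₁ S1 M hM
        have a2 := weight_sym s₂ S2 M hM
        have := w_sum a1 a2 rfl rfl (h4 0)
        rw [← count_mult3]
        push_cast at this
        simp only [ZMod.natCast_val, ZMod.cast_id', id_eq] at this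
        rw [← sum_add_distrib] at this
        refine Eq.trans ?_ this
        refine sum_congr rfl fun k hk => ?_
        rw [mem_range] at hk
        exact (hc (k + 1) (by omega) (by omega)).symm
      have heven : 2 ∣ M / 3 := (ZMod.natCast_eq_zero_iff _ _).1 hcount
      refine ⟨by omega, fun i => ?_⟩
      by_cases him : (i : ℕ) + 1 < m
      · have := hc ((i : ℕ) + 1) (by omega) him
        rw [ext_val, ext_val] at this
        rw [this]
        by_cases h : ((i : ℕ) + 1) % 3 = 0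
        · rw [if_pos h, if_pos ⟨h, him⟩]
        · rw [if_neg h, if_neg (fun hh => h hh.1)]
      · rw [if_neg (fun hh => him hh.2)]
        have hi : (i : ℕ) + 1 = m := by omega
        have p : ext s₁ m + ext s₂ m = 0 := by
          have := ST.palin m le_rfl
          rw [Nat.sub_self, ST.zero] at this
          exact this
        rw [← ext_val s₁, ← ext_val s₂, hi]
        exact p

end Pool.Agent.H56.EV
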