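import Pool.Agent.H56.EV.G2

/-! Symmetric first rows with even degrees: the matrix is D3-symmetric; odd number of letters. -/

namespace Pool.Agent.H56.EV
open Finset Pool.Agent.H61.Stein

theorem last_of_even {m : ℕ} (s : Fin m → ZMod 2) (he : ∀ i, Even (deg s i)) : ext s m = 0 := by
  rcases Nat.lt_or_ge m 2 with h | h
  · rcases Nat.eq_zero_or_pos m with h0 | h0
    · subst h0
      exact ext_zero s
    · have h1 : m = 1 := by omega
      subst h1
      have h2 := he 0
      rw [deg_zero, weight_eq, sum_range_one, Nat.zero_add] at h2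
      have key : ∀ a : ZMod 2, Even a.val → a = 0 := by decide
      exact key _ h2
  · have h1 := par_of_even s he 1 (by omega)
    have h2 := par_mid (ext s) m 0 (by omega)
    rw [Nat.zero_add] at h2
    rw [h1] at h2
    have h3 : tri (fun k => ext s (k + 2)) 0 0 = ext s 2 := rfl
    have h4 : tri (fun k => ext s (m - k)) 0 0 = ext s m := rfl
    rw [h3, h4, Nat.zero_add] at h2
    have h5 := z2_add_self (ext s 2)
    linear_combination -h2 - h5

theorem sym3_of_even {m : ℕ} (s : Fin m → ZMod 2) (he : ∀ i, Even (deg s i))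
    (hr : SymmetricRow s) : Sym3 (ext s) m := by
  have hlast := last_of_even s he
  refine ⟨?_, ext_zero s, ?_⟩
  · intro j hj
    rcases Nat.eq_zero_or_pos j with h0 | h0
    · subst h0
      rw [Nat.sub_zero, hlast, ext_zero]
    · rcases Nat.lt_or_ge j m with h1 | h1
      · exact hr j h0 h1
      · have : j = m := by omega
        subst this
        rw [Nat.sub_self, hlast, ext_zero]
  · intro i hi him
    rw [even_data s he i hi him, ← hr i hi him]

theorem form_odd {e : ℕ → ZMod 2} {m : ℕ} (h : Sym3 e m) (K l : ℕ) (hm : m = 2 * K + 1)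
    (hl : l < K) :
    ∃ w : ℕ, dg e m (2 * l + 1) = 2 * w ∧ (w : ZMod 2) = cnd e K l + e (2 * l + 1) := by
  have hc : 2 * l + 1 ≤ m := by omega
  have hcol : ∑ j ∈ range (2 * l + 1 + 1), (entry e j (2 * l + 1)).val =
      2 * ∑ j ∈ range (l + 1), (entry e j (2 * l + 1)).val := by
    rw [show 2 * l + 1 + 1 = 2 * (l + 1) by ring, pair_sum, mul_sum]
    refine sum_congr rfl fun j hj => ?_
    rw [mem_range] at hj
    have h1 := g2_entry_swap h (2 * l + 1) j hc (by omega)
    have e1 : 2 * (l + 1) - 1 - j = 2 * l + 1 - j := by omega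
    rw [e1, ← h1]
    ring
  have hrow : ∑ p ∈ range (m - (2 * l + 1) + 1), (tri e (2 * l + 1) p).val =
      2 * ∑ p ∈ range (K - l), (tri e (2 * l + 1) p).val := by
    rw [show m - (2 * l + 1) + 1 = 2 * (K - l) + 1 by omega,
      sum_palin_odd (fun p => (tri e (2 * l + 1) p).val) (K - l)]
    · rw [h.mid (2 * l) (K - l) (by omega), ZMod.val_zero, add_zero]
    · intro p hp
      show (tri e (2 * l + 1) p).val = (tri e (2 * l + 1) (2 * (K - l) - p)).val
      rw [h.rev (2 * l + 1) p (by omega)]
      congr 2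
      omega
  obtain ⟨w, hw1, hw2⟩ := g2_fin e m (2 * l + 1)
    (∑ j ∈ range (l + 1), (entry e j (2 * l + 1)).val)
    (∑ p ∈ range (K - l), (tri e (2 * l + 1) p).val)
    (by rw [g2_dg h _ hc, hcol, hrow])
  refine ⟨w, hw1, ?_⟩
  rw [hw2, Nat.cast_sum, Nat.cast_sum]
  simp only [ZMod.natCast_val, ZMod.cast_id', id]
  rw [col_part, row_part]
  have h1 : entry e (l + 1) (2 * l + 1 + 1) = 0 := by
    have e1 : 2 * l + 1 + 1 = l + 1 + (l + 1) := by omega
    rw [e1, entry_tri]
    exact h.diag (l + 1) (by omega)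
  rw [h1, h.tri0 (2 * l) (by omega)]
  unfold cnd
  have e4 : 2 * l + 1 + 1 = 2 * l + 2 := rfl
  rw [e4]
  ring

end Pool.Agent.H56.EV
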